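import Pool.Agent.helper84.LQ.SpecH
import Pool.Agent.helper34.LP.BAB
import Pool.Agent.helper33.LP.BBX

/-!
# MP_07c750, theorem LQ: row BAQ (the bad boxes)
-/

open scoped MatrixGroups ContDiff Topology UpperHalfPlane ComplexConjugate
open UpperHalfPlane MeasureTheory Filter Set

set_option autoImplicit false

namespace Pool.Agent.LP

open Pool.Agent.RS
open Pool.Agent.MS (bq BB BA SF pf)
open Pool.Agent.HV (FW)
open Pool.Agent.EN (XG MG mkX mkM fl pr)
open Pool.Agent.ER (Low LowJ)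

noncomputable section

/-- at most three integers in an interval of length two -/
lemma BAQ_three (K : Finset ℤ) (y : ℝ) : ((K.filter fun k : ℤ => |(k : ℝ) - y| ≤ 1).card : ℝ) ≤ 3 := by
  have h1 : K.filter (fun k : ℤ => |(k : ℝ) - y| ≤ 1) ⊆ Finset.Icc ⌈y - 1⌉ ⌊y + 1⌋ := by
    intro k hk
    rw [Finset.mem_filter, abs_le] at hk
    rw [Finset.mem_Icc]
    exact ⟨Int.ceil_le.2 (by linarith [hk.2.1]), Int.le_floor.2 (by linarith [hk.2.2])⟩
  have h2 := Finset.card_le_card h1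
  rw [Int.card_Icc] at h2
  have h3 : (((⌊y + 1⌋ + 1 - ⌈y - 1⌉).toNat : ℤ) : ℝ) ≤ 3 := by
    rw [Int.toNat_eq_max]
    rw [Int.cast_max, max_le_iff]
    refine ⟨?_, by norm_num⟩
    push_cast
    have h4 := Int.floor_le (y + 1)
    have h5 := Int.le_ceil (y - 1)
    linarith
  have h6 : (((⌊y + 1⌋ + 1 - ⌈y - 1⌉).toNat : ℕ) : ℝ) ≤ 3 := by exact_mod_cast h3
  exact (by exact_mod_cast h2 : ((K.filter fun k : ℤ => |(k : ℝ) - y| ≤ 1).card : ℝ) ≤ ((⌊y + 1⌋ + 1 - ⌈y - 1⌉).toNat : ℝ)).trans h6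

/-- the other order of the factors -/
lemma BAQ_fac (w τ x : ℝ) (hd : 0 < dX w τ x) :
    lM w * aM τ * nM x = nM (sX w τ x) * aM (-(2 * Real.log (dX w τ x))) * lM (w * Real.exp (τ / 2) / dX w τ x) := by
  have h1 : Real.exp (-(2 * Real.log (dX w τ x)) / 2) = (dX w τ x)⁻¹ := by
    have : -(2 * Real.log (dX w τ x)) / 2 = -Real.log (dX w τ x) := by ring
    rw [this, Real.exp_neg, Real.exp_log hd]
  have h2 : Real.exp (-(-(2 * Real.log (dX w τ x)) / 2)) = dX w τ x := by
    have : -(-(2 * Real.log (dX w τ x)) / 2) = Real.log (dX w τ x) := by ring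
    rw [this, Real.exp_log hd]
  have hEE : Real.exp (τ / 2) * Real.exp (-(τ / 2)) = 1 := by
    rw [← Real.exp_add]
    simp
  have hdE : dX w τ x = Real.exp (-(τ / 2)) + w * x * Real.exp (τ / 2) := rfl
  have hs : sX w τ x = x * Real.exp (τ / 2) / dX w τ x := rfl
  apply Subtype.ext
  simp only [Matrix.SpecialLinearGroup.coe_mul, BBX_lc, BBX_ac, BBX_nc, Matrix.mul_fin_two]
  rw [h1, h2, hs]
  set E : ℝ := Real.exp (τ / 2)
  set E' : ℝ := Real.exp (-(τ / 2))
  set d : ℝ := dX w τ x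
  have hd0 : d ≠ 0 := hd.ne'
  rw [← Matrix.ext_iff]
  intro i j
  fin_cases i <;> fin_cases j
  · simp
    field_simp
    rw [hdE]
    linear_combination hEE
  · simp
    field_simp
  · simp
    field_simp
  · simp
    rw [hdE]
    ring

/-- invariance of the boxes -/
lemma BAQ_inv (Γ : Subgroup SL(2, ℝ)) (A : Finset SL(2, ℝ)) (b v : ℝ) (γ : Γ) (g : SL(2, ℝ)) (hg : g ∈ FW Γ A b v) :
    (γ : SL(2, ℝ)) * g ∈ FW Γ A b v := by
  obtain ⟨y, hy, γ1, h1⟩ := hg
  refine ⟨y, hy, γ1 * γ⁻¹, ?_⟩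
  have h2 : y⁻¹ * ((γ1 * γ⁻¹ : Γ) : SL(2, ℝ)) * ((γ : SL(2, ℝ)) * g) = y⁻¹ * (γ1 : SL(2, ℝ)) * g := by
    rw [Subgroup.coe_mul, Subgroup.coe_inv]
    group
  rw [h2]
  exact h1

theorem BAQ_proof (hNET : IR.NET_stmt) (hQBB : QBB_stmt) (hBBX : BBX_stmt) (hUZQ : UZQ_stmt) (hCTQ : CTQ_stmt)
    (hMO2 : MO2_stmt) : BAQ_stmt := by
  classical
  intro Γ hΓ C1 a η h β b G hC1 ha0 ha hη hh0 hhη hah h3a hG hb0 hb hβ
  obtain ⟨Z, hZ⟩ := hNET Γ (b / 1000) hΓ (by positivity)
  obtain ⟨C, hC, hU⟩ := hUZQ Γ hΓ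
  obtain ⟨C2, hC2, hCT⟩ := hCTQ Γ hΓ b hb0 hb
  have hG1 : (1 : ℝ) ≤ (G : ℝ) := by
    have : (2 : ℝ) ≤ (G : ℝ) := by exact_mod_cast hG
    linarith
  obtain ⟨β', hβ1, hβ2⟩ := exists_between hβ
  have h4b : 0 < 1 / (4 * b) := by positivity
  obtain ⟨C3, hC3⟩ : ∃ C3 : ℝ, C3 = C1 + C + C2 + 1 / (4 * b) + 3 := ⟨_, rfl⟩
  have hC31 : C1 ≤ C3 := by linarith
  obtain ⟨m0, hm0⟩ := hQBB C3 a η h β' b G (by linarith) ha0 hη (by linarith) hh0 hhη.le hah (by linarith) (by linarith) hG hb0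
    (by linarith) hβ1
  have hββ : 0 < β - β' := by linarith
  obtain ⟨m1, hm1⟩ := exists_nat_gt ((Z.card : ℝ) / (β - β'))
  refine ⟨max m0 m1, fun m A hm hA => ?_⟩
  have hmm0 : m0 ≤ m := (le_max_left _ _).trans hm
  have hmm1 : (m1 : ℝ) ≤ (m : ℝ) := by exact_mod_cast (le_max_right _ _).trans hm
  set ξ : ℝ := b / 4 * Real.exp (-(G * m)) with hξdef
  have hξ : 0 < ξ := by positivity
  have hξe : ξ * Real.exp (G * m) = b / 4 := by
    rw [hξdef, mul_assoc, ← Real.exp_add]
    simp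
  set K : SL(2, ℝ) → Finset ℤ := fun z => (BAB_fin ξ hξ fun X => ¬ GD (UW Γ A (64 * b) G m z) C3 a η G m X ∧
    KO Γ A (16 * b) G m z X).toFinset with hKdef
  have hKm : ∀ z k, k ∈ K z → ∃ X : ℝ, (k : ℝ) * ξ ≤ X ∧ X < (k + 1) * ξ ∧ |X| ≤ 1 / 16 ∧
      (¬ GD (UW Γ A (64 * b) G m z) C3 a η G m X ∧ KO Γ A (16 * b) G m z X) := fun z k hk =>
    (Set.Finite.mem_toFinset (BAB_fin ξ hξ fun X => ¬ GD (UW Γ A (64 * b) G m z) C3 a η G m X ∧ KO Γ A (16 * b) G m z X)).1 hk
  have hAR : ∀ z, AR C3 h η G m (K z) := by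
    intro z
    constructor
    · intro k hk
      obtain ⟨X, h1, h2, h3, -⟩ := hKm z k hk
      rw [abs_le] at h3
      have h5 : 1 / 16 ≤ (1 / (4 * b)) * Real.exp (G * m) * ξ := by
        have : (1 / (4 * b)) * Real.exp (G * m) * ξ = 1 / (4 * b) * (ξ * Real.exp (G * m)) := by ring
        rw [this, hξe]
        field_simp
        norm_num
      have h6 : (k : ℝ) ≤ 1 / (4 * b) * Real.exp (G * m) := by
        by_contra hcon
        push Not at hcon
        have := mul_lt_mul_of_pos_right hcon hξ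
        linarith
      have h7 : -(1 / (4 * b) * Real.exp (G * m)) - 1 ≤ (k : ℝ) := by
        by_contra hcon
        push Not at hcon
        have h8 : (k : ℝ) + 1 < -(1 / (4 * b) * Real.exp (G * m)) := by linarith
        have := mul_lt_mul_of_pos_right h8 hξ
        linarith
      have h9 : 1 ≤ Real.exp (G * m) := Real.one_le_exp (by positivity)
      have h10 : (1 / (4 * b) + 1) * Real.exp (G * m) ≤ C3 * Real.exp (G * m) :=
        mul_le_mul_of_nonneg_right (by linarith) (by linarith)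
      rw [abs_le]
      constructor <;> linarith
    · intro i hi y
      rcases Nat.eq_zero_or_pos i with h0 | h0
      · subst h0
        have h1 := BAQ_three (K z) y
        simp only [Nat.cast_zero, zero_mul, Real.exp_zero, mul_zero, mul_one]
        linarith
      · have h1 := hCT G m A z (K z) (fun k hk => by
          obtain ⟨X, h1, h2, h3, h4, h5⟩ := hKm z k hk
          exact ⟨X, h1, h2, h5⟩) i h0 hi (y * ξ)
        have h2 : (((K z).filter fun d : ℤ => |(d : ℝ) - y| ≤ Real.exp (i * m)).card : ℝ) ≤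
            (((K z).filter fun k : ℤ => |(k : ℝ) * ξ - y * ξ| ≤ Real.exp (-(((G : ℝ) - i) * m))).card : ℝ) := by
          have : ((K z).filter fun d : ℤ => |(d : ℝ) - y| ≤ Real.exp (i * m)).card ≤
            ((K z).filter fun k : ℤ => |(k : ℝ) * ξ - y * ξ| ≤ Real.exp (-(((G : ℝ) - i) * m))).card := by
            refine Finset.card_le_card (Finset.monotone_filter_right _ fun k _ hk => ?_)
            have h5 : (k : ℝ) * ξ - y * ξ = (k - y) * ξ := by ring
            rw [h5, abs_mul, abs_of_pos hξ]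
            have h6 : Real.exp (i * m) * ξ = b / 4 * Real.exp (-(((G : ℝ) - i) * m)) := by
              rw [hξdef]
              have : Real.exp (-(((G : ℝ) - i) * m)) = Real.exp (i * m) * Real.exp (-(G * m)) := by
                rw [← Real.exp_add]
                congr 1
                ring
              rw [this]
              ring
            have h7 : |(k : ℝ) - y| * ξ ≤ Real.exp (i * m) * ξ := mul_le_mul_of_nonneg_right hk hξ.le
            have h8 := Real.exp_pos (-(((G : ℝ) - i) * m))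
            nlinarith
          exact_mod_cast this
        refine h2.trans (h1.trans ?_)
        exact mul_le_mul (by linarith) (hA i h0 hi) (Nat.cast_nonneg _) (by linarith)
  have hUG : ∀ z, MeasurableSet (UW Γ A (64 * b) G m z) ∧ UW Γ A (64 * b) G m z ⊆ Icc (-2 : ℝ) 2 ∧
      UGd C3 h η G m (UW Γ A (64 * b) G m z) := by
    intro z
    obtain ⟨h1, h2, h3⟩ := hU (64 * b) G m A z (by positivity) (by linarith)
    refine ⟨h1, h2, fun i hi y => ?_⟩
    rcases hi.lt_or_eq with h4 | h4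
    · have h5 := h3 (G - i) (by omega) (Nat.sub_le _ _) y
      have h6 : (((G - i : ℕ) : ℝ)) = (G : ℝ) - i := by
        rw [Nat.cast_sub hi]
      have h7 : (G : ℝ) - ((G - i : ℕ) : ℝ) = i := by
        rw [h6]
        ring
      rw [h7] at h5
      have h8 : volume.real (UW Γ A (64 * b) G m z ∩ Icc y (y + Real.exp (-(i * m)))) ≤
          volume.real (UW Γ A (64 * b) G m z ∩ Icc y (y + 3 * Real.exp (-(i * m)))) := by
        refine measureReal_mono ?_ ?_
        · refine inter_subset_inter_right _ (Icc_subset_Icc_right ?_)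
          have := Real.exp_pos (-((i : ℝ) * m))
          linarith
        · exact ((measure_mono inter_subset_right).trans_lt measure_Icc_lt_top).ne
      refine h8.trans (h5.trans ?_)
      have h9 := hA (G - i) (by omega) (Nat.sub_le _ _)
      rw [h6] at h9
      have h10 : Real.exp ((h + η - 1) * (((G : ℝ) - i) * m) - i * m) =
          Real.exp ((h + η) * (((G : ℝ) - i) * m)) * Real.exp (-(G * m)) := by
        rw [← Real.exp_add]
        congr 1
        ring
      rw [h10, ← mul_assoc]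
      refine mul_le_mul_of_nonneg_right ?_ (Real.exp_pos _).le
      exact mul_le_mul (by linarith) h9 (Nat.cast_nonneg _) (by linarith)
    · subst h4
      have h5 : volume.real (UW Γ A (64 * b) i m z ∩ Icc y (y + Real.exp (-(i * m)))) ≤
          volume.real (Icc y (y + Real.exp (-((i : ℝ) * m)))) :=
        measureReal_mono inter_subset_right measure_Icc_lt_top.ne
      rw [Real.volume_real_Icc, add_sub_cancel_left, max_eq_left (Real.exp_pos _).le] at h5
      refine h5.trans ?_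
      have h6 : (h + η - 1) * (((i : ℝ) - i) * m) - i * m = -(i * m) := by ring
      rw [h6]
      have := Real.exp_pos (-((i : ℝ) * m))
      nlinarith
  have hK : ∀ z, ((K z).card : ℝ) ≤ Real.exp (β' * (G * m)) := by
    intro z
    obtain ⟨h1, h2, h3⟩ := hUG z
    refine hm0 m (UW Γ A (64 * b) G m z) (K z) hmm0 h1 h2 h3 (hAR z) fun k hk => ?_
    obtain ⟨X, h4, h5, h6, h7, -⟩ := hKm z k hk
    exact ⟨X, h4, h5, h6, h7⟩
  refine ⟨Z.biUnion fun z => (K z).image fun k : ℤ => z * nM (k * ξ) * aM (-(G * m)), ?_, fun h0 hh0 hwin => ?_⟩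
  · have h1 : ((Z.biUnion fun z => (K z).image fun k : ℤ => z * nM (k * ξ) * aM (-(G * m))).card : ℝ) ≤ Z.card * Real.exp (β' * (G * m)) := by
      have h2 : (Z.biUnion fun z => (K z).image fun k : ℤ => z * nM (k * ξ) * aM (-(G * m))).card ≤ ∑ z ∈ Z, (K z).card :=
        Finset.card_biUnion_le.trans (Finset.sum_le_sum fun z _ => Finset.card_image_le)
      have h3 : ((∑ z ∈ Z, (K z).card : ℕ) : ℝ) ≤ ∑ z ∈ Z, Real.exp (β' * (G * m)) := by
        rw [Nat.cast_sum]
        exact Finset.sum_le_sum fun z _ => hK z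
      rw [Finset.sum_const, nsmul_eq_mul] at h3
      exact (by exact_mod_cast h2 : ((Z.biUnion fun z => (K z).image fun k : ℤ => z * nM (k * ξ) * aM (-(G * m))).card : ℝ) ≤ ((∑ z ∈ Z, (K z).card : ℕ) : ℝ)).trans h3
    refine h1.trans ?_
    have h4 : (Z.card : ℝ) ≤ Real.exp ((β - β') * (G * m)) := by
      have h5 : (Z.card : ℝ) < (β - β') * m1 := by
        have := (div_lt_iff₀ hββ).1 hm1
        linarith
      have h6 : (β - β') * m1 ≤ (β - β') * (G * m) := by
        refine mul_le_mul_of_nonneg_left ?_ hββ.le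
        have h7 : (m : ℝ) ≤ G * m := le_mul_of_one_le_left (Nat.cast_nonneg _) hG1
        linarith
      linarith [Real.add_one_le_exp ((β - β') * (G * m))]
    have h8 : Real.exp (β * (G * m)) = Real.exp ((β - β') * (G * m)) * Real.exp (β' * (G * m)) := by
      rw [← Real.exp_add]
      congr 1
      ring
    rw [h8]
    exact mul_le_mul_of_nonneg_right h4 (Real.exp_pos _).le
  · obtain ⟨z, hz, γ, w, τ, x, hw, hτ, hx, hγ⟩ := hZ h0
    refine ⟨z, γ, w, τ, x, hw, hτ, hx, hγ, ?_⟩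
    by_contra hbad
    apply hh0
    have hbad' : ¬ GD (UW Γ A (64 * b) G m z) C3 a η G m (sX w τ x) := fun h1 => hbad (BAB_GD _ C1 C3 a η G m _ hC31 h1)
    obtain ⟨hd1, hs1, hu1, -⟩ := hMO2 (b / 1000) w τ x 0 (by positivity) (by linarith) hw hτ hx (by norm_num)
    have hsX : |sX w τ x| ≤ 1 / 16 := by linarith
    obtain ⟨hda, hdb⟩ := abs_le.mp hd1
    have hd0 : 0 < dX w τ x := by linarith
    have hKO : KO Γ A (16 * b) G m z (sX w τ x) := by
      refine ⟨-(2 * Real.log (dX w τ x)), w * Real.exp (τ / 2) / dX w τ x, ?_, by linarith, fun j hj1 hj2 => ?_⟩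
      · have h1 : Real.log (dX w τ x) ≤ 1 / 100 := by
          have := Real.log_le_sub_one_of_pos hd0
          linarith
        have h2 : -(1 / 2 : ℝ) ≤ Real.log (dX w τ x) := by
          have h3 := Real.one_sub_inv_le_log_of_pos hd0
          have h4 : (dX w τ x)⁻¹ ≤ 3 / 2 := by
            rw [inv_le_comm₀ hd0 (by norm_num)]
            norm_num
            linarith
          linarith
        rw [abs_le]
        constructor <;> linarith
      · have h1 : z * nM (sX w τ x) * aM (-(2 * Real.log (dX w τ x))) * lM (w * Real.exp (τ / 2) / dX w τ x) * aM (-(G * m)) =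
            (γ : SL(2, ℝ)) * (h0 * aM (-(G * m))) := by
          calc z * nM (sX w τ x) * aM (-(2 * Real.log (dX w τ x))) * lM (w * Real.exp (τ / 2) / dX w τ x) * aM (-(G * m))
              = z * (nM (sX w τ x) * aM (-(2 * Real.log (dX w τ x))) * lM (w * Real.exp (τ / 2) / dX w τ x)) * aM (-(G * m)) := by group
            _ = z * (lM w * aM τ * nM x) * aM (-(G * m)) := by rw [← BAQ_fac w τ x hd0]
            _ = (z * lM w * aM τ * nM x) * aM (-(G * m)) := by group
            _ = (γ : SL(2, ℝ)) * h0 * aM (-(G * m)) := by rw [hγ]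
            _ = _ := by group
        rw [h1]
        exact BAQ_inv Γ (A j) (16 * b) _ γ _ (hwin j hj1 hj2)
    have h1 := Int.floor_le (sX w τ x / ξ)
    have h2 := Int.lt_floor_add_one (sX w τ x / ξ)
    have h3 : ((⌊sX w τ x / ξ⌋ : ℤ) : ℝ) * ξ ≤ sX w τ x := (le_div_iff₀ hξ).1 h1
    have h4 : sX w τ x < (((⌊sX w τ x / ξ⌋ : ℤ) : ℝ) + 1) * ξ := (div_lt_iff₀ hξ).1 h2
    have hkK : ⌊sX w τ x / ξ⌋ ∈ K z := (Set.Finite.mem_toFinset _).2 ⟨sX w τ x, h3, h4, hsX, hbad', hKO⟩
    have hbox := hBBX Γ b w τ x (((⌊sX w τ x / ξ⌋ : ℤ) : ℝ) * ξ) (G * m) h0 z γ hb0 (by linarith) (by positivity) hw hτ hx hγ (by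
      rw [abs_of_nonneg (by linarith)]
      have : (((⌊sX w τ x / ξ⌋ : ℤ) : ℝ) + 1) * ξ = ((⌊sX w τ x / ξ⌋ : ℤ) : ℝ) * ξ + b / 4 * Real.exp (-(G * m)) := by
        rw [add_mul, one_mul]
      linarith)
    obtain ⟨y, hy, γ', hγ'⟩ := hbox
    rw [Finset.mem_singleton] at hy
    refine ⟨y, ?_, γ', hγ'⟩
    rw [hy]
    exact Finset.mem_biUnion.2 ⟨z, hz, Finset.mem_image.2 ⟨_, hkK, rfl⟩⟩

end

end Pool.Agent.LP
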